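import Pool.Agent.Work.MP_db9399_ot.Base
import Pool.Agent.Work.MP_db9399_lh_helper35.ASM

/-!
# THEOREM OUT, block ASM: the total colouring from the matchings and LEMU, part by part
(helper6, from the file of helper35 for LCH)
-/

set_option autoImplicit false

namespace Pool.Agent.Work.MP_db9399_ot.helper6.ASM

open Finset Classical
open Pool.Agent.Work.MP_db9399_bg (mem_nb mem_c3 LabP Lbl c3f c3 rs eR Ix HPre Spr)
open Pool.Agent.Work.MP_db9399_all (nb)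
open Pool.Agent.Work.MP_db9399_px (LWalk hit ee)
open Pool.Agent.Work.MP_db9399_dn (NB IsMat Tot)
open Pool.Agent.Work.MP_db9399_lc.helper6.ASM (rest rest_deg nb_ne mat_eq)
open Pool.Agent.Work.MP_db9399_lh (Cr Lh ce su kp io sp pt cr cy rf rx rr tj ty inM rP rR np nr eP
  pr qr qe fq f0 ft Vq EndSX Vd UW VCol Rr Rf Jk Ub P0R PeR tj_not_rr)
open Pool.Agent.Work.MP_db9399_lh.helper35.ASM (resti US mem_UW MA MA_symm US_left mem_Ub Qi mem_Qi
  pi3 notQ notQ1 ty_part c_cell cov_U cov_e cov_e1)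
open Pool.Agent.Work.MP_db9399_ot

universe u

/-! ## The general statement -/

section general
variable {V : Type u} [Fintype V]

/-- total colouring from disjoint matchings `M b` which cover almost everything; the vertices of the
class `i` may use the colours of `Q i` for the other edges -/
theorem core3x {k d : ℕ} (G : SimpleGraph V) (c : V → Fin k) (T : Finset (Fin k))
    (Q : ZMod 3 → Finset (Fin k)) (π : V → ZMod 3)
    (W X Y : Finset V) (M : Fin k → SimpleGraph V)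
    (hdeg : ∀ v, (nb G v).card ≤ d) (hT : T.card = d + 2) (hQT : ∀ i, Q i ⊆ T)
    (hcadj : ∀ v w, G.Adj v w → c v ≠ c w) (hcQ : ∀ v, c v ∉ Q (π v))
    (hle : ∀ b v w, (M b).Adj v w → G.Adj v w)
    (hMQ : ∀ b v w, (M b).Adj v w → b ∉ Q (π v)) (hmat : ∀ b, IsMat (M b))
    (hd : ∀ b b', b ≠ b' → ∀ v w, (M b).Adj v w → ¬ (M b').Adj v w)
    (hc : ∀ b v w, (M b).Adj v w → c v ≠ b)
    (hcov : ∀ v, v ∉ W → ∀ b ∈ T \ Q (π v), b ≠ c v → (nb (M b) v).Nonempty)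
    (hcovW : ∀ v ∈ W, ∃ b0, ∀ b ∈ T \ Q (π v), b ≠ c v → b ≠ b0 → (nb (M b) v).Nonempty)
    (hXY : Disjoint X Y)
    (hXX : ∀ v ∈ X, ∀ w ∈ X, G.Adj v w → ∃ b, (M b).Adj v w)
    (hYY : ∀ v ∈ Y, ∀ w ∈ Y, G.Adj v w → ∃ b, (M b).Adj v w)
    (hBW : ∀ v w, G.Adj v w → v ∉ X → v ∉ Y → w ∈ W → ∃ b, (M b).Adj v w)
    (hπ : ∀ v w, G.Adj v w → π v ≠ π w → ∃ b, (M b).Adj v w) :
    ∃ t : V → V → Fin k, Tot G c t ∧ (∀ b v w, (M b).Adj v w → t v w = b) ∧
      ∀ v w, G.Adj v w → (¬ ∃ b, (M b).Adj v w) → t v w ∈ Q (π v) := by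
  have hTk : T.card ≤ k := by
    have := Finset.card_le_univ T
    rwa [Fintype.card_fin] at this
  have hk : 0 < k := by omega
  have hcd : ∀ i, (T \ Q i).card + (Q i).card = d + 2 := by
    intro i
    rw [Finset.card_sdiff_add_card_eq_card (hQT i), hT]
  have hd1 : ∀ v, v ∉ W → (nb (rest G M) v).card + 1 ≤ (Q (π v)).card := by
    intro v hv
    have h1 := rest_deg hle hd v ((T \ Q (π v)).erase (c v)) (by
      intro b hb
      rw [Finset.mem_erase] at hb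
      exact hcov v hv b hb.2 hb.1)
    have h2 := Finset.pred_card_le_card_erase (s := T \ Q (π v)) (a := c v)
    have h3 := hdeg v
    have h4 := hcd (π v)
    omega
  have hd2 : ∀ v ∈ W, (nb (rest G M) v).card ≤ (Q (π v)).card := by
    intro v hv
    obtain ⟨b0, hb0⟩ := hcovW v hv
    have h1 := rest_deg hle hd v (((T \ Q (π v)).erase (c v)).erase b0) (by
      intro b hb
      rw [Finset.mem_erase, Finset.mem_erase] at hb
      exact hb0 b hb.2.2 hb.2.1 hb.1)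
    have h2 := Finset.pred_card_le_card_erase (s := T \ Q (π v)) (a := c v)
    have h4 := Finset.pred_card_le_card_erase (s := (T \ Q (π v)).erase (c v)) (a := b0)
    have h3 := hdeg v
    have h5 := hcd (π v)
    omega
  have hd0 : ∀ v, (nb (rest G M) v).card ≤ (Q (π v)).card := by
    intro v
    by_cases hv : v ∈ W
    · exact hd2 v hv
    · have := hd1 v hv
      omega
  have hnbi : ∀ i v, (nb (resti G M π i) v).card ≤ (nb (rest G M) v).card := by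
    intro i v
    refine Finset.card_le_card ?_
    intro y hy
    exact mem_nb.mpr (mem_nb.mp hy).1
  have hex : ∀ i : ZMod 3, ∃ t : V → V → ℕ, (∀ v w, t v w = t w v) ∧
      (∀ v w, (resti G M π i).Adj v w → t v w < (Q i).card) ∧
      ∀ v, Set.InjOn (t v) (nb (resti G M π i) v : Set V) := by
    intro i
    refine Pool.Agent.Work.MP_db9399_lu.stmt_LEMU (resti G M π i) (Q i).card X Y hXY ?_ ?_ ?_ ?_
    · intro v
      by_cases hv : π v = i
      · have h1 := hd0 v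
        rw [hv] at h1
        exact (hnbi i v).trans h1
      · have h1 : nb (resti G M π i) v = ∅ := by
          rw [Finset.eq_empty_iff_forall_notMem]
          intro y hy
          exact hv (mem_nb.mp hy).2.1
        rw [h1]
        exact Nat.zero_le _
    · intro v hv w hw h
      obtain ⟨b, hb⟩ := hXX v hv w hw h.1.1
      exact h.1.2 b hb
    · intro v hv w hw h
      obtain ⟨b, hb⟩ := hYY v hv w hw h.1.1
      exact h.1.2 b hb
    · intro v w h hvX hvY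
      have h1 := hd1 w (fun hw => by
        obtain ⟨b, hb⟩ := hBW v w h.1.1 hvX hvY hw
        exact h.1.2 b hb)
      rw [h.2.2] at h1
      have h2 := hnbi i w
      omega
  choose t' hsym hlt hinj using hex
  -- the colours of the palettes
  obtain ⟨φ, hφQ, hφI⟩ : ∃ φ : ZMod 3 → ℕ → Fin k, (∀ i n, n < (Q i).card → φ i n ∈ Q i) ∧
      ∀ i n n', n < (Q i).card → n' < (Q i).card → φ i n = φ i n' → n = n' := by
    refine ⟨fun i n => if h : n < (Q i).card then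
      (((Q i).equivFinOfCardEq rfl).symm ⟨n, h⟩ : Fin k) else ⟨0, hk⟩, ?_, ?_⟩
    · intro i n hn
      simp only [dif_pos hn]
      exact (((Q i).equivFinOfCardEq rfl).symm ⟨n, hn⟩).2
    · intro i n n' hn hn' h
      simp only [dif_pos hn, dif_pos hn'] at h
      have := ((Q i).equivFinOfCardEq rfl).symm.injective (Subtype.ext h)
      simpa using this
  set t : V → V → Fin k := fun v w => if h : ∃ b, (M b).Adj v w then h.choose else
    if π v = π w then φ (π v) (t' (π v) v w) else ⟨0, hk⟩ with ht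
  have huniq : ∀ v w b b', (M b).Adj v w → (M b').Adj v w → b = b' := by
    intro v w b b' h h'
    by_contra hne
    exact hd b b' hne v w h h'
  have htM : ∀ v w b, (M b).Adj v w → t v w = b := by
    intro v w b h
    have he : ∃ b, (M b).Adj v w := ⟨b, h⟩
    simp only [ht, dif_pos he]
    exact huniq v w _ _ he.choose_spec h
  have htR : ∀ v w, (¬ ∃ b, (M b).Adj v w) → π v = π w → t v w = φ (π v) (t' (π v) v w) := by
    intro v w h h'
    simp only [ht, dif_neg h, if_pos h']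
  have htN : ∀ v w, (¬ ∃ b, (M b).Adj v w) → π v ≠ π w → t v w = ⟨0, hk⟩ := by
    intro v w h h'
    simp only [ht, dif_neg h, if_neg h']
  have hres : ∀ v w, G.Adj v w → (¬ ∃ b, (M b).Adj v w) →
      π v = π w ∧ (resti G M π (π v)).Adj v w := by
    intro v w hvw h
    have h1 : π v = π w := by
      by_contra h2
      exact h (hπ v w hvw h2)
    exact ⟨h1, ⟨hvw, fun b hb => h ⟨b, hb⟩⟩, rfl, h1.symm⟩
  refine ⟨t, ⟨hcadj, ?_, ?_, ?_⟩, fun b v w h => htM v w b h, ?_⟩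
  rotate_right
  · intro v w hvw h
    obtain ⟨h3, h4⟩ := hres v w hvw h
    rw [htR v w h h3]
    exact hφQ _ _ (hlt _ v w h4)
  · intro v w
    by_cases h : ∃ b, (M b).Adj v w
    · obtain ⟨b, hb⟩ := h
      rw [htM v w b hb, htM w v b hb.symm]
    · have h' : ¬ ∃ b, (M b).Adj w v := fun ⟨b, hb⟩ => h ⟨b, hb.symm⟩
      by_cases h2 : π v = π w
      · rw [htR v w h h2, htR w v h' h2.symm, ← h2, hsym]
      · rw [htN v w h h2, htN w v h' (fun h3 => h2 h3.symm)]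
  · intro v y hy z hz hyz
    have hy' : G.Adj v y := mem_nb.mp hy
    have hz' : G.Adj v z := mem_nb.mp hz
    by_cases h1 : ∃ b, (M b).Adj v y
    · obtain ⟨b, hb⟩ := h1
      rw [htM v y b hb] at hyz
      by_cases h2 : ∃ b, (M b).Adj v z
      · obtain ⟨b', hb'⟩ := h2
        rw [htM v z b' hb'] at hyz
        subst hyz
        exact Finset.card_le_one.mp (hmat b v) y (mem_nb.mpr hb) z (mem_nb.mpr hb')
      · obtain ⟨h3, h4⟩ := hres v z hz' h2
        rw [htR v z h2 h3] at hyz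
        exact absurd (hyz ▸ hφQ _ _ (hlt _ v z h4)) (hMQ b v y hb)
    · obtain ⟨h5, h6⟩ := hres v y hy' h1
      rw [htR v y h1 h5] at hyz
      by_cases h2 : ∃ b, (M b).Adj v z
      · obtain ⟨b', hb'⟩ := h2
        rw [htM v z b' hb'] at hyz
        exact absurd (hyz ▸ hφQ _ _ (hlt _ v y h6)) (hMQ b' v z hb')
      · obtain ⟨h3, h4⟩ := hres v z hz' h2
        rw [htR v z h2 h3] at hyz
        exact hinj (π v) v (mem_nb.mpr h6) (mem_nb.mpr h4)
          (hφI _ _ _ (hlt _ v y h6) (hlt _ v z h4) hyz)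
  · intro v w hvw
    by_cases h : ∃ b, (M b).Adj v w
    · obtain ⟨b, hb⟩ := h
      rw [htM v w b hb]
      exact (hc b v w hb).symm
    · obtain ⟨h3, h4⟩ := hres v w hvw h
      rw [htR v w h h3]
      intro he
      exact hcQ v (he ▸ hφQ _ _ (hlt _ v w h4))

end general

/-! ## The matchings -/

section mats
variable {V : Type u} [Fintype V] {n l m r K K1 S k w W1 d D ν : ℕ} {gd ε δ : ℝ}
  {G H : SimpleGraph V} {Gc : Fin n → SimpleGraph V}
  {UH : Finset V} {c0 : V → Fin k} {EH : SimpleGraph V} {tu : V → Fin k}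
  {lab : V → Lh l m r K K1 S} {e : Ix m w → Fin k} {τ : Fin w → Option (ZMod 3)}
  {ι : Fin w → Option (Fin n)}
  {ρ : Fin w → ZMod 3} {e1 : Fin W1 → Fin k} {sy : Fin W1 → Fin (K1 + 1) × Fin (K1 + 1)}
  {tp : V → ZMod 3} {pal : Fin m × Fin w → Fin (r + 1)}
  {c : V → Fin k} {wv : V → Fin k → V} {Nd M : Ix m w → SimpleGraph V}
  {O : Ix m w → Finset V} {Kk M1 : Fin W1 → SimpleGraph V}
  {O1 : Fin W1 → Finset V}

/-- the edges of the near-decomposition -/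
theorem nd_fact (hN : NDec ν H Gc UH lab τ ι Nd) (hι : ∀ s, ι s ≠ none → τ s = none)
    {i : Ix m w} {x y : V} (h : (Nd i).Adj x y) : τ i.2.2 ≠ some (pt (lab x)) ∧
      ((H.Adj x y ∧ ty ν (τ i.2.2) (cr (lab x)) (cr (lab y))) ∨
        ∃ j, ι i.2.2 = some j ∧ (Gc j).Adj x y) := by
  rcases hj : ι i.2.2 with _ | j
  · have h1 := hN.gh i hj x y h
    exact ⟨ty_part h1.2, Or.inl h1⟩
  · refine ⟨?_, Or.inr ⟨j, rfl, hN.gc i j hj h⟩⟩
    rw [hι i.2.2 (by rw [hj]; simp)]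
    simp


/-- facts about the partners -/
theorem US_fact (hU : UPar G H Gc D δ UH c0 tu lab e τ ι e1 sy tp c wv) {b : Fin k} {x y : V}
    (h : US UH c0 tu e τ e1 tp wv b x y) :
    G.Adj x y ∧ y ∉ UH ∧ c y ≠ b := by
  obtain ⟨h1, h0, h2, h3, h4⟩ := h
  have := hU.adj x h1 b h2 h3 h0
  rwa [h4] at this

theorem US_right (hU : UPar G H Gc D δ UH c0 tu lab e τ ι e1 sy tp c wv) {b : Fin k} {x x' y : V}
    (h : US UH c0 tu e τ e1 tp wv b x y) (h' : US UH c0 tu e τ e1 tp wv b x' y) : x = x' :=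
  hU.inj2 x h.1 x' h'.1 b h.2.2.1 h.2.2.2.1 h'.2.2.1 h'.2.2.2.1 h.2.1 h'.2.1
    (by rw [h.2.2.2.2, h'.2.2.2.2])

theorem US_col (hU : UPar G H Gc D δ UH c0 tu lab e τ ι e1 sy tp c wv) {b b' : Fin k} {x y : V}
    (h : US UH c0 tu e τ e1 tp wv b x y) (h' : US UH c0 tu e τ e1 tp wv b' x y) : b = b' :=
  hU.inj x h.1 b b' h.2.2.1 h.2.2.2.1 h'.2.2.1 h'.2.2.2.1 h.2.1 h'.2.1
    (by rw [h.2.2.2.2, h'.2.2.2.2])

/-- the cell and the part of a partner -/
theorem US_cel (hU : UPar G H Gc D δ UH c0 tu lab e τ ι e1 sy tp c wv)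
    (he : Function.Injective e) (hee : ∀ x y, e x ≠ e1 y) {i : Ix m w} {x y : V}
    (h : US UH c0 tu e τ e1 tp wv (e i) x y) :
    ce (lab y) ∈ c3 i.1 i.2.1 ∧ τ i.2.2 ≠ some (pt (lab y)) := by
  have h1 : τ i.2.2 ≠ some (tp x) := by
    rcases h.2.1 with ⟨i', hi', hi2⟩ | ⟨j, hj⟩
    · rw [he hi'] at hi2
      exact hi2
    · exact absurd hj.symm (hee _ _)
  have := hU.cel x h.1 i h.2.2.1 h.2.2.2.1 h1
  rwa [h.2.2.2.2] at this

/-- the label of a partner -/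
theorem US_lam (hU : UPar G H Gc D δ UH c0 tu lab e τ ι e1 sy tp c wv) {j : Fin W1} {x y : V}
    (h : US UH c0 tu e τ e1 tp wv (e1 j) x y) :
    ¬ (sp (lab y) = (sy j).1 ∨ sp (lab y) = (sy j).2) := by
  have := hU.spl x h.1 j h.2.2.1 h.2.2.2.1
  rw [h.2.2.2.2] at this
  exact fun h2 => h2.elim this.1 this.2

/-- types of a pair outside `UH` -/
theorem typ_o (hN : NDec ν H Gc UH lab τ ι Nd)
    (hP : P0R gd H D UH c0 tu lab e τ ρ e1 tp c wv Nd M O)
    (hL : Lft G H UH lab sy Nd M Kk) (hE : PeR H UH c0 tu lab e τ e1 tp wv Kk M O M1 O1)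
    {b : Fin k} {x y : V}
    (h : (∃ i, e i = b ∧ ((Nd i).Adj x y ∨ (M i).Adj x y)) ∨
      (∃ j, e1 j = b ∧ ((Kk j).Adj x y ∨ (M1 j).Adj x y))) :
    (∃ i, e i = b ∧ (Nd i).Adj x y ∧ x ∉ UH ∧ y ∉ UH ∧ ce (lab x) ∉ c3 i.1 i.2.1 ∧
        (nb (Nd i) x).Nonempty ∧ (Nd i).Adj x y) ∨
      (∃ i, e i = b ∧ (M i).Adj x y ∧ x ∉ UH ∧ y ∉ UH ∧
        x ∈ Ub UH c0 tu lab e τ e1 tp c wv Nd i ∧ (Rr H UH lab).Adj x y) ∨
      (∃ j, e1 j = b ∧ (Kk j).Adj x y ∧ x ∉ UH ∧ y ∉ UH ∧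
        (sp (lab x) = (sy j).1 ∨ sp (lab x) = (sy j).2) ∧ ¬ (Rf H UH lab).Adj x y ∧
        (nb (Kk j) x).Nonempty) ∨
      (∃ j, e1 j = b ∧ (M1 j).Adj x y ∧ x ∉ UH ∧ y ∉ UH ∧ (Rf H UH lab).Adj x y ∧
        ¬ (nb (Kk j) x).Nonempty ∧ x ∉ UW UH c0 tu e τ e1 tp wv b) := by
  rcases h with ⟨i, hi, h | h⟩ | ⟨j, hj, h | h⟩
  · have h1 := hN.adj i _ _ h
    have h2 := hN.adj i _ _ h.symm
    exact Or.inl ⟨i, hi, h, h1.1, h2.1, h1.2.1, nb_ne h, h⟩
  · have h1 := hP.le i _ _ h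
    exact Or.inr (Or.inl ⟨i, hi, h, h1.1.2.1, h1.1.2.2.1, h1.2, h1.1⟩)
  · have h1 := hL.mem j _ _ h
    have h2 := hL.mem j _ _ h.symm
    exact Or.inr (Or.inr (Or.inl ⟨j, hj, h, h1.1, h2.1, h1.2.2, h1.2.1, nb_ne h⟩))
  · have h1 := hE.le j _ _ h
    refine Or.inr (Or.inr (Or.inr ⟨j, hj, h, h1.1.2.1, h1.1.2.2.1, h1.1, h1.2.2, ?_⟩))
    rw [← hj]
    exact h1.2.1

/-- all pairs -/
theorem typ (hH : HPre G UH c0 EH tu) (hU : UPar G H Gc D δ UH c0 tu lab e τ ι e1 sy tp c wv)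
    (hN : NDec ν H Gc UH lab τ ι Nd)
    (hP : P0R gd H D UH c0 tu lab e τ ρ e1 tp c wv Nd M O)
    (hL : Lft G H UH lab sy Nd M Kk) (hE : PeR H UH c0 tu lab e τ e1 tp wv Kk M O M1 O1)
    {b : Fin k} {x y : V} (h : MA UH c0 tu EH e τ e1 tp wv Nd M Kk M1 b x y) :
    (x ∉ UH ∧ y ∉ UH ∧ ((∃ i, e i = b ∧ ((Nd i).Adj x y ∨ (M i).Adj x y)) ∨
      (∃ j, e1 j = b ∧ ((Kk j).Adj x y ∨ (M1 j).Adj x y)))) ∨
    (x ∈ UH ∧ y ∉ UH ∧ US UH c0 tu e τ e1 tp wv b x y) ∨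
    (x ∉ UH ∧ y ∈ UH ∧ US UH c0 tu e τ e1 tp wv b y x) ∨
    (x ∈ UH ∧ y ∈ UH ∧ EH.Adj x y ∧ tu x = b) := by
  rcases h with ⟨i, hi, h⟩ | ⟨j, hj, h⟩ | h | h | h
  · refine Or.inl ⟨?_, ?_, Or.inl ⟨i, hi, h⟩⟩
    · exact h.elim (fun h => (hN.adj i _ _ h).1) (fun h => (hP.le i _ _ h).1.2.1)
    · exact h.elim (fun h => (hN.adj i _ _ h.symm).1) (fun h => (hP.le i _ _ h).1.2.2.1)
  · refine Or.inl ⟨?_, ?_, Or.inr ⟨j, hj, h⟩⟩
    · exact h.elim (fun h => (hL.mem j _ _ h).1) (fun h => (hE.le j _ _ h).1.2.1)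
    · exact h.elim (fun h => (hL.mem j _ _ h.symm).1) (fun h => (hE.le j _ _ h).1.2.2.1)
  · exact Or.inr (Or.inl ⟨h.1, (US_fact hU h).2.1, h⟩)
  · exact Or.inr (Or.inr (Or.inl ⟨(US_fact hU h).2.1, h.1, h⟩))
  · exact Or.inr (Or.inr (Or.inr ⟨hH.EU _ _ h.1, hH.EU _ _ h.1.symm, h.1, h.2⟩))

/-- all edges are edges of `G` -/
theorem MA_le (hG : Cls ε G H Gc d D) (hH : HPre G UH c0 EH tu) (hU : UPar G H Gc D δ UH c0 tu lab e τ ι e1 sy tp c wv)
    (hN : NDec ν H Gc UH lab τ ι Nd)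
    (hP : P0R gd H D UH c0 tu lab e τ ρ e1 tp c wv Nd M O)
    (hL : Lft G H UH lab sy Nd M Kk) (hE : PeR H UH c0 tu lab e τ e1 tp wv Kk M O M1 O1)
    {b : Fin k} {x y : V} (h : MA UH c0 tu EH e τ e1 tp wv Nd M Kk M1 b x y) : G.Adj x y := by
  rcases h with ⟨i, hi, h | h⟩ | ⟨j, hj, h | h⟩ | h | h | h
  · rcases hj : ι i.2.2 with _ | j
    · exact hG.HG (hN.gh i hj x y h).1
    · exact hG.GG j (hN.gc i j hj h)
  · exact hG.HG (hP.le i _ _ h).1.1
  · exact hL.le j h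
  · exact hG.HG (hE.le j _ _ h).1.1
  · exact (US_fact hU h).1
  · exact (US_fact hU h).1.symm
  · exact hH.EG h.1

/-- a vertex outside `UH`: partner edges and other edges of the same colour are excluded -/
theorem o_ne (hU : UPar G H Gc D δ UH c0 tu lab e τ ι e1 sy tp c wv)
    (he : Function.Injective e) (hee : ∀ x y, e x ≠ e1 y) (hN : NDec ν H Gc UH lab τ ι Nd)
    (hP : P0R gd H D UH c0 tu lab e τ ρ e1 tp c wv Nd M O)
    (hL : Lft G H UH lab sy Nd M Kk) (hE : PeR H UH c0 tu lab e τ e1 tp wv Kk M O M1 O1)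
    {b : Fin k} {x y z : V}
    (h : (∃ i, e i = b ∧ ((Nd i).Adj x y ∨ (M i).Adj x y)) ∨
      (∃ j, e1 j = b ∧ ((Kk j).Adj x y ∨ (M1 j).Adj x y)))
    (h' : US UH c0 tu e τ e1 tp wv b z x) : False := by
  rcases typ_o hN hP hL hE h with ⟨i, rfl, h, a1, a2, a3, a4, a5⟩ |
    ⟨i, rfl, h, a1, a2, a3, a4⟩ | ⟨j, rfl, h, a1, a2, a3, a4, a5⟩ |
    ⟨j, rfl, h, a1, a2, a3, a4, a5⟩
  · exact a3 (US_cel hU he hee h').1
  · rcases mem_Ub.mp a3 with h3 | h3
    · exact h3.2.2.2.2 (mem_UW.mpr ⟨z, h'⟩)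
    · exact h3.2.2.1 (US_cel hU he hee h').1
  · exact US_lam hU h' a3
  · exact a5 (mem_UW.mpr ⟨z, h'⟩)

/-- uniqueness outside `UH` -/
theorem o_uniq (he : Function.Injective e) (he1 : Function.Injective e1)
    (hee : ∀ x y, e x ≠ e1 y) (hN : NDec ν H Gc UH lab τ ι Nd)
    (hP : P0R gd H D UH c0 tu lab e τ ρ e1 tp c wv Nd M O)
    (hL : Lft G H UH lab sy Nd M Kk) (hE : PeR H UH c0 tu lab e τ e1 tp wv Kk M O M1 O1)
    {b : Fin k} {x y z : V}
    (h : (∃ i, e i = b ∧ ((Nd i).Adj x y ∨ (M i).Adj x y)) ∨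
      (∃ j, e1 j = b ∧ ((Kk j).Adj x y ∨ (M1 j).Adj x y)))
    (h' : (∃ i, e i = b ∧ ((Nd i).Adj x z ∨ (M i).Adj x z)) ∨
      (∃ j, e1 j = b ∧ ((Kk j).Adj x z ∨ (M1 j).Adj x z))) : y = z := by
  have key : ∀ {y z : V} {i : Ix m w}, (Nd i).Adj x y → (M i).Adj x z → False := by
    intro y z i h1 h2
    have h3 := hN.adj i _ _ h1
    rcases mem_Ub.mp (hP.le i _ _ h2).2 with h4 | h4
    · exact h3.2.1 h4.2.2.1
    · exact h4.2.2.2 (nb_ne h1)
  have key1 : ∀ {y z : V} {j : Fin W1}, (Kk j).Adj x y → (M1 j).Adj x z → False := by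
    intro y z j h1 h2
    exact (hE.le j _ _ h2).2.2 (nb_ne h1)
  rcases h with ⟨i, rfl, h⟩ | ⟨j, rfl, h⟩ <;> rcases h' with ⟨i', hi', h'⟩ | ⟨j', hj', h'⟩
  · have h2 := he hi'
    subst h2
    rcases h with h | h <;> rcases h' with h' | h'
    · exact mat_eq (hN.mat i') h h'
    · exact (key h h').elim
    · exact (key h' h).elim
    · exact mat_eq (hP.mat i') h h'
  · exact absurd hj'.symm (hee _ _)
  · exact absurd hi' (hee _ _)
  · have h2 := he1 hj'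
    subst h2
    rcases h with h | h <;> rcases h' with h' | h'
    · exact mat_eq (hL.mat j') h h'
    · exact (key1 h h').elim
    · exact (key1 h' h).elim
    · exact mat_eq (hE.mat j') h h'

/-- uniqueness -/
theorem MA_uniq (hH : HPre G UH c0 EH tu) (hU : UPar G H Gc D δ UH c0 tu lab e τ ι e1 sy tp c wv)
    (he : Function.Injective e) (he1 : Function.Injective e1)
    (hee : ∀ x y, e x ≠ e1 y) (hN : NDec ν H Gc UH lab τ ι Nd)
    (hP : P0R gd H D UH c0 tu lab e τ ρ e1 tp c wv Nd M O)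
    (hL : Lft G H UH lab sy Nd M Kk) (hE : PeR H UH c0 tu lab e τ e1 tp wv Kk M O M1 O1)
    {b : Fin k} {x y z : V} (h : MA UH c0 tu EH e τ e1 tp wv Nd M Kk M1 b x y)
    (h' : MA UH c0 tu EH e τ e1 tp wv Nd M Kk M1 b x z) : y = z := by
  rcases typ hH hU hN hP hL hE h with ⟨a1, a2, h⟩ | ⟨a1, a2, h⟩ | ⟨a1, a2, h⟩ |
    ⟨a1, a2, h, h0⟩ <;>
  rcases typ hH hU hN hP hL hE h' with ⟨b1, b2, h'⟩ | ⟨b1, b2, h'⟩ | ⟨b1, b2, h'⟩ |
    ⟨b1, b2, h', h0'⟩
  · exact o_uniq he he1 hee hN hP hL hE h h'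
  · exact absurd b1 a1
  · exact (o_ne hU he hee hN hP hL hE h h').elim
  · exact absurd b1 a1
  · exact absurd a1 b1
  · exact US_left h h'
  · exact absurd a1 b1
  · exact absurd h0'.symm h.2.2.2.1
  · exact (o_ne hU he hee hN hP hL hE h' h).elim
  · exact absurd b1 a1
  · exact US_right hU h h'
  · exact absurd b1 a1
  · exact absurd a1 b1
  · exact absurd h0.symm h'.2.2.2.1
  · exact absurd a1 b1
  · exact mat_eq hH.mat h h'

/-- the colours of an edge outside `UH` are equal -/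
theorem o_col (hG : Cls ε G H Gc d D) (hl : 3 ≤ l) (hN : NDec ν H Gc UH lab τ ι Nd)
    (hP : P0R gd H D UH c0 tu lab e τ ρ e1 tp c wv Nd M O)
    (hL : Lft G H UH lab sy Nd M Kk) (hE : PeR H UH c0 tu lab e τ e1 tp wv Kk M O M1 O1)
    {b b' : Fin k} {x y : V}
    (h : (∃ i, e i = b ∧ ((Nd i).Adj x y ∨ (M i).Adj x y)) ∨
      (∃ j, e1 j = b ∧ ((Kk j).Adj x y ∨ (M1 j).Adj x y)))
    (h' : (∃ i, e i = b' ∧ ((Nd i).Adj x y ∨ (M i).Adj x y)) ∨
      (∃ j, e1 j = b' ∧ ((Kk j).Adj x y ∨ (M1 j).Adj x y))) : b = b' := by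
  have hty : ∀ {i : Ix m w}, (Nd i).Adj x y → H.Adj x y → rr (cr (lab x)) (cr (lab y)) →
      False := by
    intro i h1 h0 h2
    rcases hj : ι i.2.2 with _ | j
    · rcases (hN.gh i hj x y h1).2 with ⟨j, _, h3⟩ | ⟨_, h3, _⟩
      · exact tj_not_rr hl h3 h2
      · exact h3 h2
    · exact hG.disH j x y (hN.gc i j hj h1) h0
  have k1 : ∀ {i i' : Ix m w}, (Nd i).Adj x y → (M i').Adj x y → False := by
    intro i i' h1 h2
    exact hty h1 (hP.le i' _ _ h2).1.1 (hP.le i' _ _ h2).1.2.2.2.2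
  have k2 : ∀ {i : Ix m w} {j : Fin W1}, (Nd i).Adj x y → (M1 j).Adj x y → False := by
    intro i j h1 h2
    exact hty h1 (hE.le j _ _ h2).1.1 (Or.inl (hE.le j _ _ h2).1.2.2.2.2)
  have k3 : ∀ {j j' : Fin W1}, (Kk j).Adj x y → (M1 j').Adj x y → False := by
    intro j j' h1 h2
    exact (hL.mem j _ _ h1).2.1 (hE.le j' _ _ h2).1
  have k4 : ∀ {i : Ix m w} {j : Fin W1}, ((Nd i).Adj x y ∨ (M i).Adj x y) →
      ((Kk j).Adj x y ∨ (M1 j).Adj x y) → False := by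
    intro i j h1 h2
    rcases h1 with h1 | h1 <;> rcases h2 with h2 | h2
    · exact (hL.new j _ _ h2 i).1 h1
    · exact k2 h1 h2
    · exact (hL.new j _ _ h2 i).2 h1
    · exact hE.new j _ _ h2 i h1
  by_contra hne
  rcases h with ⟨i, rfl, h⟩ | ⟨j, rfl, h⟩ <;> rcases h' with ⟨i', rfl, h'⟩ | ⟨j', rfl, h'⟩
  · have hii : i ≠ i' := fun h0 => hne (by rw [h0])
    rcases h with h | h <;> rcases h' with h' | h'
    · exact hN.dis i i' hii _ _ h h'
    · exact k1 h h'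
    · exact k1 h' h
    · exact hP.dis i i' hii _ _ h h'
  · exact k4 h h'
  · exact k4 h' h
  · have hjj : j ≠ j' := fun h0 => hne (by rw [h0])
    rcases h with h | h <;> rcases h' with h' | h'
    · exact hL.dis j j' hjj _ _ h h'
    · exact k3 h h'
    · exact k3 h' h
    · exact hE.dis j j' hjj _ _ h h'

/-- the colours of an edge are equal -/
theorem MA_col (hG : Cls ε G H Gc d D) (hl : 3 ≤ l) (hH : HPre G UH c0 EH tu)
    (hU : UPar G H Gc D δ UH c0 tu lab e τ ι e1 sy tp c wv) (hN : NDec ν H Gc UH lab τ ι Nd)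
    (hP : P0R gd H D UH c0 tu lab e τ ρ e1 tp c wv Nd M O)
    (hL : Lft G H UH lab sy Nd M Kk) (hE : PeR H UH c0 tu lab e τ e1 tp wv Kk M O M1 O1)
    {b b' : Fin k} {x y : V} (h : MA UH c0 tu EH e τ e1 tp wv Nd M Kk M1 b x y)
    (h' : MA UH c0 tu EH e τ e1 tp wv Nd M Kk M1 b' x y) : b = b' := by
  rcases typ hH hU hN hP hL hE h with ⟨a1, a2, h⟩ | ⟨a1, a2, h⟩ | ⟨a1, a2, h⟩ |
    ⟨a1, a2, h, h0⟩ <;>
  rcases typ hH hU hN hP hL hE h' with ⟨b1, b2, h'⟩ | ⟨b1, b2, h'⟩ | ⟨b1, b2, h'⟩ |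
    ⟨b1, b2, h', h0'⟩
  · exact o_col hG hl hN hP hL hE h h'
  · exact absurd b1 a1
  · exact absurd b2 a2
  · exact absurd b1 a1
  · exact absurd a1 b1
  · exact US_col hU h h'
  · exact absurd a1 b1
  · exact absurd b2 a2
  · exact absurd a2 b2
  · exact absurd b1 a1
  · exact US_col hU h h'
  · exact absurd b1 a1
  · exact absurd a1 b1
  · exact absurd a2 b2
  · exact absurd a1 b1
  · rw [← h0, ← h0']

/-- the colour of an edge is not the colour of its ends -/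
theorem MA_c (hH : HPre G UH c0 EH tu) (he : Function.Injective e) (hee : ∀ x y, e x ≠ e1 y)
    (hC : VCol G UH c0 lab e τ pal c)
    (hU : UPar G H Gc D δ UH c0 tu lab e τ ι e1 sy tp c wv) (hN : NDec ν H Gc UH lab τ ι Nd)
    (hP : P0R gd H D UH c0 tu lab e τ ρ e1 tp c wv Nd M O)
    (hL : Lft G H UH lab sy Nd M Kk) (hE : PeR H UH c0 tu lab e τ e1 tp wv Kk M O M1 O1)
    {b : Fin k} {x y : V} (h : MA UH c0 tu EH e τ e1 tp wv Nd M Kk M1 b x y) : c x ≠ b := by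
  have hne : ∀ {j : Fin W1}, x ∉ UH → c x ≠ e1 j := by
    intro j hx hxc
    obtain ⟨p, hp, _⟩ := hC.cP x hx
    rw [hxc] at hp
    exact hee _ _ hp.symm
  rcases typ hH hU hN hP hL hE h with ⟨a1, a2, h⟩ | ⟨a1, a2, h⟩ | ⟨a1, a2, h⟩ |
    ⟨a1, a2, h, h0⟩
  · rcases typ_o hN hP hL hE h with ⟨i, rfl, h, _, _, a3, a4, a5⟩ |
      ⟨i, rfl, h, _, _, a3, a4⟩ | ⟨j, rfl, h, _, _, a3, a4, a5⟩ |
      ⟨j, rfl, h, _, _, a3, a4, a5⟩
    · exact c_cell he hC a1 a3
    · rcases mem_Ub.mp a3 with h3 | h3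
      · exact h3.2.2.2.1
      · exact c_cell he hC a1 h3.2.2.1
    · exact hne a1
    · exact hne a1
  · rw [hC.cU x a1]
    exact h.2.2.1.symm
  · exact (US_fact hU h).2.2
  · rw [hC.cU x a1, ← h0]
    exact (hH.ct x a1).symm

/-- the colour of an edge is not in the palette of its ends -/
theorem MA_Q (hH : HPre G UH c0 EH tu) (he : Function.Injective e) (hee : ∀ x y, e x ≠ e1 y)
    (htp : ∀ u ∈ UH, ∀ x, τ x.2.2 = some (tp u) → e x ≠ c0 u ∧ e x ≠ tu u)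
    (hι : ∀ s, ι s ≠ none → τ s = none) (hU : UPar G H Gc D δ UH c0 tu lab e τ ι e1 sy tp c wv) (hN : NDec ν H Gc UH lab τ ι Nd)
    (hP : P0R gd H D UH c0 tu lab e τ ρ e1 tp c wv Nd M O)
    (hL : Lft G H UH lab sy Nd M Kk) (hE : PeR H UH c0 tu lab e τ e1 tp wv Kk M O M1 O1)
    {b : Fin k} {x y : V} (h : MA UH c0 tu EH e τ e1 tp wv Nd M Kk M1 b x y) :
    b ∉ Qi e τ (pi3 UH lab tp x) := by
  unfold pi3
  rcases typ hH hU hN hP hL hE h with ⟨a1, a2, h⟩ | ⟨a1, a2, h⟩ | ⟨a1, a2, h⟩ |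
    ⟨a1, a2, h, h0⟩
  · rw [if_neg a1]
    rcases typ_o hN hP hL hE h with ⟨i, rfl, h, _, _, a3, a4, a5⟩ |
      ⟨i, rfl, h, _, _, a3, a4⟩ | ⟨j, rfl, h, _, _, a3, a4, a5⟩ |
      ⟨j, rfl, h, _, _, a3, a4, a5⟩
    · exact notQ he (nd_fact hN hι a5).1
    · rcases mem_Ub.mp a3 with h3 | h3
      · exact notQ he h3.2.1
      · exact notQ he h3.2.1
    · exact notQ1 hee
    · exact notQ1 hee
  · rw [if_pos a1]
    rcases h.2.1 with ⟨i, rfl, hi2⟩ | ⟨j, rfl⟩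
    · exact notQ he hi2
    · exact notQ1 hee
  · rw [if_neg a1]
    rcases h.2.1 with ⟨i, rfl, hi2⟩ | ⟨j, rfl⟩
    · exact notQ he (US_cel hU he hee h).2
    · exact notQ1 hee
  · rw [if_pos a1]
    intro h1
    obtain ⟨i, h2, h3⟩ := mem_Qi.mp h1
    exact (htp x a1 i h2).2 (h3.trans h0.symm)

end mats

end Pool.Agent.Work.MP_db9399_ot.helper6.ASM

namespace Pool.Agent.Work.MP_db9399_ot.helper6

open Finset Classical
open Pool.Agent.Work.MP_db9399_bg (mem_nb mem_c3 LabP Lbl c3f c3 rs eR Ix HPre Spr inW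
  not_rs_of_inW)
open Pool.Agent.Work.MP_db9399_all (nb)
open Pool.Agent.Work.MP_db9399_dn (NB IsMat Tot)
open Pool.Agent.Work.MP_db9399_lc.helper6 (not_rs_Y not_rs_B)
open Pool.Agent.Work.MP_db9399_lh (Cr Lh ce su kp io sp pt cr cy rf rx rr tj ty inM rP rR np nr eP
  pr qr qe fq f0 ft Vq EndSX Vd UW VCol Rr Rf Jk Ub P0R PeR)
open Pool.Agent.Work.MP_db9399_lh.helper35.ASM (resti US mem_UW MA MA_symm US_left mem_Ub Qi mem_Qi
  pi3 notQ notQ1 ty_part c_cell cov_U cov_e cov_e1)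
open Pool.Agent.Work.MP_db9399_ot
open ASM

universe u

theorem stmt_ASM : Stmt_ASM.{u} := by
  intro V _ n l m r K K1 S gd ε δ G H Gc d D k w W1 ν UH c0 EH tu lab e τ ι ρ e1 sy tp pal c wv
    Nd M O Kk M1 O1 hl hdeg hG hdk hH he he1 hee htp _ hι hC hU hN hP hL hE
  have hT : ∀ b, b ∈ univ.filter (fun b => b ∈ Set.range e ∨ b ∈ Set.range e1) ↔
      (b ∈ Set.range e ∨ b ∈ Set.range e1) := by
    intro b
    simp only [Finset.mem_filter, Finset.mem_univ, true_and]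
  have hTc : (univ.filter (fun b => b ∈ Set.range e ∨ b ∈ Set.range e1)).card = d + 2 := by
    have h1 : (univ.filter (fun b => b ∈ Set.range e ∨ b ∈ Set.range e1)) =
        (univ : Finset (Ix m w)).image e ∪ (univ : Finset (Fin W1)).image e1 := by
      ext b
      simp
    rw [h1, card_union_of_disjoint, card_image_of_injective _ he, card_image_of_injective _ he1,
      card_univ, card_univ, Fintype.card_fin, ← hdk]
    · congr 1
      rw [Fintype.card_prod, Fintype.card_prod, Fintype.card_fin, Fintype.card_fin, ZMod.card]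
    · rw [disjoint_left]
      intro b hb hb'
      obtain ⟨i, _, hi⟩ := mem_image.mp hb
      obtain ⟨j, _, hj⟩ := mem_image.mp hb'
      exact hee i j (hi.trans hj.symm)
  have hadj0 : ∀ x y, x ∉ UH → y ∉ UH → G.Adj x y → ¬ (Rf H UH lab).Adj x y →
      ∃ b, MA UH c0 tu EH e τ e1 tp wv Nd M Kk M1 b x y := by
    intro x y hx hy hxy hr
    rcases hL.all x y hx hy hxy hr with ⟨i, hi⟩ | ⟨i, hi⟩ | ⟨j, hj⟩
    · exact ⟨e i, Or.inl ⟨i, rfl, Or.inl hi⟩⟩
    · exact ⟨e i, Or.inl ⟨i, rfl, Or.inr hi⟩⟩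
    · exact ⟨e1 j, Or.inr (Or.inl ⟨j, rfl, Or.inl hj⟩)⟩
  have hadj : ∀ x y, x ∉ UH → y ∉ UH → G.Adj x y → ¬ rf (cr (lab x)) (cr (lab y)) →
      ∃ b, MA UH c0 tu EH e τ e1 tp wv Nd M Kk M1 b x y :=
    fun x y hx hy hxy hr => hadj0 x y hx hy hxy (fun h => hr h.2.2.2.2)
  have hsat : ∀ x y, x ∈ UH → y ∉ UH → G.Adj x y →
      (¬ H.Adj x y ∨ pt (lab y) ≠ tp x ∨ inM (lab y)) →
      ∃ b, MA UH c0 tu EH e τ e1 tp wv Nd M Kk M1 b x y := by
    intro x y hx hy hxy h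
    obtain ⟨i, h0, h1, h2, h3⟩ := hU.sat x hx y hxy hy h
    exact ⟨e i, Or.inr (Or.inr (Or.inl ⟨hx, Or.inl ⟨i, rfl, h0⟩, h1, h2, h3⟩))⟩
  suffices hsuff : ∃ t : V → V → Fin k, Tot G c t ∧
      (∀ b v w, MA UH c0 tu EH e τ e1 tp wv Nd M Kk M1 b v w → t v w = b) ∧
      ∀ v w, G.Adj v w → (¬ ∃ b, MA UH c0 tu EH e τ e1 tp wv Nd M Kk M1 b v w) →
        t v w ∈ Qi e τ (pi3 UH lab tp v) by
    obtain ⟨t, ht, hM, hR⟩ := hsuff
    refine ⟨t, ht, ?_, ?_⟩
    · intro x y hxy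
      exact hM (tu x) x y (Or.inr (Or.inr (Or.inr (Or.inr ⟨hxy, rfl⟩))))
    · have hUSf : ∀ b x y, US UH c0 tu e τ e1 tp wv b x y →
          (∃ z, b = e z ∧ (H.Adj x y ∨ ∃ i, ι z.2.2 = some i ∧ (Gc i).Adj x y)) ∨
          ∃ z, b = e1 z ∧ H.Adj x y := by
        intro b x y h
        obtain ⟨h1, h0, h2, h3, h4⟩ := h
        rcases h0 with ⟨i, hi, hi2⟩ | ⟨j, hj⟩
        · subst hi
          have h5 := hU.cls x h1 i h2 h3 hi2
          rw [h4] at h5
          exact Or.inl ⟨i, rfl, h5⟩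
        · subst hj
          have h5 := hU.cl1 x h1 j h2 h3
          rw [h4] at h5
          exact Or.inr ⟨j, rfl, h5⟩
      intro x y hxy hEH
      by_cases hb : ∃ b, MA UH c0 tu EH e τ e1 tp wv Nd M Kk M1 b x y
      · obtain ⟨b, hb⟩ := hb
        have hbt := hM b x y hb
        rcases typ hH hU hN hP hL hE hb with ⟨a1, a2, h⟩ | ⟨a1, a2, h⟩ | ⟨a1, a2, h⟩ |
          ⟨a1, a2, h, h0⟩
        · rcases h with ⟨i, hi, h | h⟩ | ⟨j, hj, h | h⟩
          · left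
            refine ⟨i, hbt.trans hi.symm, ?_⟩
            rcases (nd_fact hN hι h).2 with h5 | h5
            · exact Or.inl h5.1
            · exact Or.inr h5
          · left
            exact ⟨i, hbt.trans hi.symm, Or.inl (hP.le i _ _ h).1.1⟩
          · right
            exact ⟨j, hbt.trans hj.symm, Or.inr ⟨(hL.mem j _ _ h).2.2, (hL.mem j _ _ h.symm).2.2⟩⟩
          · right
            exact ⟨j, hbt.trans hj.symm, Or.inl (hE.le j _ _ h).1.1⟩
        · rcases hUSf b x y h with ⟨z, hz, h5⟩ | ⟨z, hz, h5⟩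
          · exact Or.inl ⟨z, hbt.trans hz, h5⟩
          · exact Or.inr ⟨z, hbt.trans hz, Or.inl h5⟩
        · rcases hUSf b y x h with ⟨z, hz, h5⟩ | ⟨z, hz, h5⟩
          · refine Or.inl ⟨z, hbt.trans hz, ?_⟩
            rcases h5 with h5 | ⟨i, h6, h7⟩
            · exact Or.inl h5.symm
            · exact Or.inr ⟨i, h6, h7.symm⟩
          · exact Or.inr ⟨z, hbt.trans hz, Or.inl h5.symm⟩
        · exact absurd h hEH
      · have h1 := hR x y hxy hb
        obtain ⟨z, _, hz⟩ := mem_Qi.mp h1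
        refine Or.inl ⟨z, hz.symm, Or.inl ?_⟩
        by_contra hnH
        apply hb
        by_cases hxU : x ∈ UH <;> by_cases hyU : y ∈ UH
        · exact absurd (hH.ind x hxU y hyU hxy) hEH
        · exact hsat x y hxU hyU hxy (Or.inl hnH)
        · obtain ⟨b, hb'⟩ := hsat y x hyU hxU hxy.symm (Or.inl (fun h => hnH h.symm))
          exact ⟨b, MA_symm hH hb'⟩
        · exact hadj0 x y hxU hyU hxy (fun h => hnH h.1)
  refine core3x G c
    (univ.filter (fun b => b ∈ Set.range e ∨ b ∈ Set.range e1)) (Qi e τ) (pi3 UH lab tp)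
    (univ.filter (fun x => x ∉ UH ∧ inM (lab x)))
    (univ.filter (fun x => x ∉ UH ∧ inW (lab x).1))
    (univ.filter (fun x => x ∉ UH ∧ l + 2 ≤ (lab x).1.2.1.val))
    (fun b => { Adj := MA UH c0 tu EH e τ e1 tp wv Nd M Kk M1 b
                symm := ⟨fun x y h => MA_symm hH h⟩
                loopless := ⟨fun x h => G.loopless.irrefl x (MA_le hG hH hU hN hP hL hE h)⟩ })
    hdeg hTc ?_ hC.adj ?_ ?_ ?_ ?_ ?_ ?_ ?_ ?_ ?_ ?_ ?_ ?_ ?_
  · intro i b hb
    rw [hT]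
    obtain ⟨x, _, hx⟩ := mem_Qi.mp hb
    exact Or.inl ⟨x, hx⟩
  · intro x
    unfold pi3
    by_cases hx : x ∈ UH
    · rw [if_pos hx, hC.cU x hx]
      intro h
      obtain ⟨i, h1, h2⟩ := mem_Qi.mp h
      exact (htp x hx i h1).1 h2
    · rw [if_neg hx]
      obtain ⟨p, hp, _, h2⟩ := hC.cP x hx
      rw [hp]
      apply notQ he
      rw [h2]
      simp
  · intro b x y h
    exact MA_le hG hH hU hN hP hL hE h
  · intro b x y h
    exact MA_Q hH he hee htp hι hU hN hP hL hE h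
  · intro b x
    rw [Finset.card_le_one]
    intro y hy z hz
    exact MA_uniq hH hU he he1 hee hN hP hL hE (mem_nb.mp hy) (mem_nb.mp hz)
  · intro b b' hne x y h h'
    exact hne (MA_col hG hl hH hU hN hP hL hE h h')
  · intro b x y h
    exact MA_c hH he hee hC hU hN hP hL hE h
  · intro x hx b hb hbc
    obtain ⟨hb, hbQ⟩ := mem_sdiff.mp hb
    rw [hT] at hb
    have hcov : ∃ y, MA UH c0 tu EH e τ e1 tp wv Nd M Kk M1 b x y := by
      by_cases hxU : x ∈ UH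
      · unfold pi3 at hbQ
        rw [if_pos hxU] at hbQ
        refine cov_U hH hxU ?_ (by rw [← hC.cU x hxU]; exact hbc)
        rcases hb with ⟨i, hi⟩ | hb
        · exact Or.inl ⟨i, hi, fun h => hbQ (mem_Qi.mpr ⟨i, h, hi⟩)⟩
        · exact Or.inr hb
      · unfold pi3 at hbQ
        rw [if_neg hxU] at hbQ
        have hxW : ¬ inM (lab x) := by
          intro h0
          exact hx (Finset.mem_filter.mpr ⟨Finset.mem_univ _, hxU, h0⟩)
        rcases hb with ⟨i, rfl⟩ | ⟨j, rfl⟩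
        · exact cov_e hP hxU (fun h => hbQ (mem_Qi.mpr ⟨i, h, rfl⟩)) hbc.symm
            (fun h0 => hxW (hP.OU i x h0).2.2.2)
        · exact cov_e1 hE hxU (fun h0 => hxW (hE.OW j x h0).2)
    obtain ⟨y, hy⟩ := hcov
    exact ⟨y, mem_nb.mpr hy⟩
  · intro x hx
    have hxU : x ∉ UH := (Finset.mem_filter.mp hx).2.1
    have hpart : ∀ b ∈ (univ.filter (fun b => b ∈ Set.range e ∨ b ∈ Set.range e1)) \
        Qi e τ (pi3 UH lab tp x), (∃ i, e i = b ∧ τ i.2.2 ≠ some (pt (lab x))) ∨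
        ∃ j, e1 j = b := by
      intro b hb
      obtain ⟨hb, hbQ⟩ := mem_sdiff.mp hb
      rw [hT] at hb
      unfold pi3 at hbQ
      rw [if_neg hxU] at hbQ
      rcases hb with ⟨i, rfl⟩ | ⟨j, rfl⟩
      · exact Or.inl ⟨i, rfl, fun h => hbQ (mem_Qi.mpr ⟨i, h, rfl⟩)⟩
      · exact Or.inr ⟨j, rfl⟩
    by_cases h0 : ∃ i, x ∈ O i
    · obtain ⟨i0, hi0⟩ := h0
      refine ⟨e i0, ?_⟩
      intro b hb hbc hb0
      have hcov : ∃ y, MA UH c0 tu EH e τ e1 tp wv Nd M Kk M1 b x y := by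
        rcases hpart b hb with ⟨i, rfl, hip⟩ | ⟨j, rfl⟩
        · refine cov_e hP hxU hip hbc.symm (fun h1 => ?_)
          have hne : i0 ≠ i := fun h2 => hb0 (by rw [h2])
          exact Finset.disjoint_left.mp (hP.Od i0 i hne) hi0 h1
        · exact cov_e1 hE hxU (fun h1 => Finset.disjoint_left.mp (hE.Od j i0) h1 hi0)
      obtain ⟨y, hy⟩ := hcov
      exact ⟨y, mem_nb.mpr hy⟩
    · push Not at h0
      by_cases h2 : ∃ j, x ∈ O1 j
      · obtain ⟨j0, hj0⟩ := h2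
        refine ⟨e1 j0, ?_⟩
        intro b hb hbc hb0
        have hcov : ∃ y, MA UH c0 tu EH e τ e1 tp wv Nd M Kk M1 b x y := by
          rcases hpart b hb with ⟨i, rfl, hip⟩ | ⟨j, rfl⟩
          · exact cov_e hP hxU hip hbc.symm (h0 i)
          · refine cov_e1 hE hxU (fun h1 => ?_)
            have hne : j0 ≠ j := fun h2 => hb0 (by rw [h2])
            exact Finset.disjoint_left.mp (hE.O1d j0 j hne) hj0 h1
        obtain ⟨y, hy⟩ := hcov
        exact ⟨y, mem_nb.mpr hy⟩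
      · push Not at h2
        refine ⟨c x, ?_⟩
        intro b hb hbc _
        have hcov : ∃ y, MA UH c0 tu EH e τ e1 tp wv Nd M Kk M1 b x y := by
          rcases hpart b hb with ⟨i, rfl, hip⟩ | ⟨j, rfl⟩
          · exact cov_e hP hxU hip hbc.symm (h0 i)
          · exact cov_e1 hE hxU (h2 j)
        obtain ⟨y, hy⟩ := hcov
        exact ⟨y, mem_nb.mpr hy⟩
  · rw [Finset.disjoint_left]
    intro x hx hy
    have hx1 := (Finset.mem_filter.mp hx).2.2.2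
    have hy1 := (Finset.mem_filter.mp hy).2.2
    omega
  · intro x hx y hy hxy
    have hx1 := (Finset.mem_filter.mp hx).2
    have hy1 := (Finset.mem_filter.mp hy).2
    refine hadj x y hx1.1 hy1.1 hxy (fun h => ?_)
    exact not_rs_of_inW hx1.2 hy1.2 h.2
  · intro x hx y hy hxy
    have hx1 := (Finset.mem_filter.mp hx).2
    have hy1 := (Finset.mem_filter.mp hy).2
    refine hadj x y hx1.1 hy1.1 hxy (fun h => ?_)
    exact not_rs_Y hx1.2 hy1.2 h.2
  · intro x y hxy hxX hxY hy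
    have hy1 := (Finset.mem_filter.mp hy).2
    by_cases hxU : x ∈ UH
    · exact hsat x y hxU hy1.1 hxy (Or.inr (Or.inr hy1.2))
    · refine hadj x y hxU hy1.1 hxy (fun h => ?_)
      have hx1 : ¬ inW (lab x).1 := fun h0 =>
        hxX (Finset.mem_filter.mpr ⟨Finset.mem_univ _, hxU, h0⟩)
      have hx2 : ¬ (l + 2 ≤ (lab x).1.2.1.val) := fun h0 =>
        hxY (Finset.mem_filter.mpr ⟨Finset.mem_univ _, hxU, h0⟩)
      have h3 : (lab x).1.2.1.val = 0 ∨ (lab x).1.2.1.val = l + 1 := by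
        unfold inW at hx1
        omega
      exact not_rs_B (t := (lab y).1) h3 hy1.2 h.2
  · intro x y hxy hne
    unfold pi3 at hne
    by_cases hxU : x ∈ UH <;> by_cases hyU : y ∈ UH
    · exact ⟨tu x, Or.inr (Or.inr (Or.inr (Or.inr ⟨hH.ind x hxU y hyU hxy, rfl⟩)))⟩
    · rw [if_pos hxU, if_neg hyU] at hne
      exact hsat x y hxU hyU hxy (Or.inr (Or.inl (fun h => hne h.symm)))
    · rw [if_neg hxU, if_pos hyU] at hne
      obtain ⟨b, hb⟩ := hsat y x hyU hxU hxy.symm (Or.inr (Or.inl hne))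
      exact ⟨b, MA_symm hH hb⟩
    · rw [if_neg hxU, if_neg hyU] at hne
      exact hadj x y hxU hyU hxy (fun h => hne h.1)

end Pool.Agent.Work.MP_db9399_ot.helper6
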